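import Pool.Agent.G9.Stmts

/-!
Squad GNI (MP_094b6b_co), row KER: the kernel `χ (x - y) ψ (κ (γ + ε (x + y)) ^ 2 / (x - y))`.
-/

set_option autoImplicit false

namespace Pool.Agent.G9.H52

open Finset

theorem chi_norm_le (F : Type) [Field F] [Fintype F] [DecidableEq F] (a : F) :
    ‖((quadraticChar F a : ℤ) : ℂ)‖ ≤ 1 := by
  by_cases ha : a = 0
  · subst ha
    simp
  · rcases quadraticChar_dichotomy ha with h | h <;> rw [h] <;> simp

theorem psi_norm (F : Type) [Field F] [Fintype F] (ψ : AddChar F ℂ) (a : F) : ‖ψ a‖ = 1 :=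
  AddChar.norm_apply ψ a

theorem sum_norm_le (F : Type) [Fintype F] (g : F → ℂ) :
    ∑ y, ‖g y‖ ≤ Real.sqrt (Fintype.card F) * Real.sqrt (∑ y, ‖g y‖ ^ 2) := by
  rw [← Real.sqrt_mul (by positivity)]
  apply Real.le_sqrt_of_sq_le
  have h := sq_sum_le_card_mul_sum_sq (s := (Finset.univ : Finset F)) (f := fun y => ‖g y‖)
  simpa using h

theorem norm_le_sqrt (F : Type) [Fintype F] (f : F → ℂ) (a : F) :
    ‖f a‖ ≤ Real.sqrt (∑ x, ‖f x‖ ^ 2) := by
  apply Real.le_sqrt_of_sq_le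
  exact Finset.single_le_sum (f := fun x => ‖f x‖ ^ 2) (fun x _ => by positivity)
    (Finset.mem_univ a)

theorem edge_le (F : Type) [Fintype F] (f g : F → ℂ) (a : F) (c : F → ℂ) (hc : ∀ y, ‖c y‖ ≤ 1) :
    ‖∑ y, c y * (f a * g y)‖ ≤
      Real.sqrt (Fintype.card F) *
        (Real.sqrt (∑ x, ‖f x‖ ^ 2) * Real.sqrt (∑ y, ‖g y‖ ^ 2)) := by
  calc ‖∑ y, c y * (f a * g y)‖ ≤ ∑ y, ‖c y * (f a * g y)‖ := norm_sum_le _ _
    _ ≤ ∑ y, ‖f a‖ * ‖g y‖ := by
        apply Finset.sum_le_sum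
        intro y _
        rw [norm_mul, norm_mul]
        have := hc y
        have h2 : 0 ≤ ‖f a‖ * ‖g y‖ := by positivity
        nlinarith
    _ = ‖f a‖ * ∑ y, ‖g y‖ := by rw [Finset.mul_sum]
    _ ≤ Real.sqrt (∑ x, ‖f x‖ ^ 2) *
        (Real.sqrt (Fintype.card F) * Real.sqrt (∑ y, ‖g y‖ ^ 2)) :=
        mul_le_mul (norm_le_sqrt F f a) (sum_norm_le F g)
          (Finset.sum_nonneg fun y _ => norm_nonneg _) (Real.sqrt_nonneg _)
    _ = _ := by ring

theorem twist_le (F : Type) [Field F] [Fintype F] [DecidableEq F] (f : F → ℂ) :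
    Real.sqrt (∑ x, ‖((quadraticChar F x⁻¹ : ℤ) : ℂ) * f x⁻¹‖ ^ 2) ≤
      Real.sqrt (∑ x, ‖f x‖ ^ 2) := by
  apply Real.sqrt_le_sqrt
  rw [← Equiv.sum_comp (Equiv.inv F) (fun x => ‖f x‖ ^ 2)]
  apply Finset.sum_le_sum
  intro x _
  rw [norm_mul]
  have h1 := chi_norm_le F x⁻¹
  have h2 : 0 ≤ ‖((quadraticChar F x⁻¹ : ℤ) : ℂ)‖ := norm_nonneg _
  have h3 : ‖((quadraticChar F x⁻¹ : ℤ) : ℂ)‖ * ‖f x⁻¹‖ ≤ ‖f x⁻¹‖ := by
    have := norm_nonneg (f x⁻¹)
    nlinarith
  have h4 : (Equiv.inv F) x = x⁻¹ := rfl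
  simp only [h4]
  exact pow_le_pow_left₀ (by positivity) h3 2

theorem core (h : CnvStmt) (F : Type) [Field F] [Fintype F] [DecidableEq F] [CharP F 3]
    (ψ : AddChar F ℂ) (hψ : ψ ≠ 1) (hq : Fintype.card F % 4 = 3) (κ : F) (f g : F → ℂ) :
    ‖∑ x, ∑ y, ((quadraticChar F (x - y) : ℤ) : ℂ) * ψ (κ * (x * y) / (x - y)) *
        (f x * g y)‖ ≤
      5 * Real.sqrt (Fintype.card F) *
        (Real.sqrt (∑ x, ‖f x‖ ^ 2) * Real.sqrt (∑ y, ‖g y‖ ^ 2)) := by
  set T : F → F → ℂ := fun x y =>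
    ((quadraticChar F (x - y) : ℤ) : ℂ) * ψ (κ * (x * y) / (x - y)) * (f x * g y) with hT
  set f2 : F → ℂ := fun x => ((quadraticChar F x⁻¹ : ℤ) : ℂ) * f x⁻¹ with hf2
  set g2 : F → ℂ := fun x => ((quadraticChar F x⁻¹ : ℤ) : ℂ) * g x⁻¹ with hg2
  set K : F → F → ℂ := fun x y =>
    ((quadraticChar F (x - y) : ℤ) : ℂ) * ψ ((-κ) / (x - y)) * (f2 x * g2 y) with hK
  have key : ∀ x y, T x y = ((quadraticChar F (-1) : ℤ) : ℂ) * K x⁻¹ y⁻¹ +
      (if x = 0 then T 0 y else 0) + (if y = 0 then T x 0 else 0) := by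
    intro x y
    by_cases hx : x = 0
    · subst hx
      by_cases hy : y = 0
      · subst hy
        simp [hT, hK, hf2]
      · simp [hK, hf2, hy]
    · by_cases hy : y = 0
      · subst hy
        simp [hK, hg2, hx]
      · rw [if_neg hx, if_neg hy, add_zero, add_zero]
        simp only [hT, hK, hf2, hg2, inv_inv]
        have e1 : x - y = (-1) * (x * (y * (x⁻¹ - y⁻¹))) := by
          field_simp
          ring
        have e2 : κ * (x * y) / (x - y) = (-κ) / (x⁻¹ - y⁻¹) := by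
          by_cases hxy : x = y
          · subst hxy
            simp
          · have h1 : x - y ≠ 0 := sub_ne_zero.mpr hxy
            have h2 : x⁻¹ - y⁻¹ ≠ 0 := by
              intro h0
              exact hxy (inv_injective (sub_eq_zero.mp h0))
            rw [div_eq_div_iff h1 h2]
            field_simp
            ring
        have e3 : quadraticChar F (x - y) = quadraticChar F (-1) *
            (quadraticChar F x * (quadraticChar F y * quadraticChar F (x⁻¹ - y⁻¹))) := by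
          conv_lhs => rw [e1]
          rw [map_mul, map_mul, map_mul]
        rw [e2, e3]
        push_cast
        ring
  have hsum : ∑ x, ∑ y, T x y = ((quadraticChar F (-1) : ℤ) : ℂ) * (∑ x, ∑ y, K x y) +
      (∑ y, T 0 y) + ∑ x, T x 0 := by
    have e1 : ∑ x, ∑ y, K x y = ∑ x, ∑ y, K x⁻¹ y⁻¹ := by
      rw [← Equiv.sum_comp (Equiv.inv F) (fun x => ∑ y, K x y)]
      apply Finset.sum_congr rfl
      intro x _
      rw [← Equiv.sum_comp (Equiv.inv F) (fun y => K ((Equiv.inv F) x) y)]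
      rfl
    rw [e1]
    calc ∑ x, ∑ y, T x y = ∑ x, ∑ y, (((quadraticChar F (-1) : ℤ) : ℂ) * K x⁻¹ y⁻¹ +
      (if x = 0 then T 0 y else 0) + (if y = 0 then T x 0 else 0)) :=
          Finset.sum_congr rfl fun x _ => Finset.sum_congr rfl fun y _ => key x y
      _ = ∑ x, ((∑ y, ((quadraticChar F (-1) : ℤ) : ℂ) * K x⁻¹ y⁻¹) +
          (if x = 0 then ∑ y, T 0 y else 0) + T x 0) := by
          apply Finset.sum_congr rfl
          intro x _
          rw [Finset.sum_add_distrib, Finset.sum_add_distrib]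
          congr 1
          · congr 1
            by_cases hx : x = 0
            · simp [hx]
            · simp [hx]
          · simp
      _ = _ := by
          rw [Finset.sum_add_distrib, Finset.sum_add_distrib]
          simp only [← Finset.mul_sum]
          simp
  have hmain := h F ψ hψ hq (-κ) f2 g2
  have hb1 : ‖((quadraticChar F (-1) : ℤ) : ℂ) * (∑ x, ∑ y, K x y)‖ ≤
      3 * Real.sqrt (Fintype.card F) *
        (Real.sqrt (∑ x, ‖f x‖ ^ 2) * Real.sqrt (∑ y, ‖g y‖ ^ 2)) := by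
    rw [norm_mul]
    have h1 := chi_norm_le F (-1)
    have h2 : ‖∑ x, ∑ y, K x y‖ ≤ 3 * Real.sqrt (Fintype.card F) *
        (Real.sqrt (∑ x, ‖f x‖ ^ 2) * Real.sqrt (∑ y, ‖g y‖ ^ 2)) := by
      refine hmain.trans ?_
      apply mul_le_mul_of_nonneg_left _ (by positivity)
      exact mul_le_mul (twist_le F f) (twist_le F g) (Real.sqrt_nonneg _) (Real.sqrt_nonneg _)
    have h3 := norm_nonneg (∑ x, ∑ y, K x y)
    nlinarith
  have hb2 : ‖∑ y, T 0 y‖ ≤ Real.sqrt (Fintype.card F) *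
        (Real.sqrt (∑ x, ‖f x‖ ^ 2) * Real.sqrt (∑ y, ‖g y‖ ^ 2)) := by
    have := edge_le F f g 0 (fun y =>
      ((quadraticChar F (0 - y) : ℤ) : ℂ) * ψ (κ * (0 * y) / (0 - y))) (fun y => by
        rw [norm_mul, psi_norm, mul_one]
        exact chi_norm_le F _)
    exact this
  have hb3 : ‖∑ x, T x 0‖ ≤ Real.sqrt (Fintype.card F) *
        (Real.sqrt (∑ x, ‖f x‖ ^ 2) * Real.sqrt (∑ y, ‖g y‖ ^ 2)) := by
    have := edge_le F g f 0 (fun x =>
      ((quadraticChar F (x - 0) : ℤ) : ℂ) * ψ (κ * (x * 0) / (x - 0))) (fun y => by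
        rw [norm_mul, psi_norm, mul_one]
        exact chi_norm_le F _)
    rw [mul_comm (Real.sqrt (∑ x, ‖f x‖ ^ 2))]
    have e : ∑ x, T x 0 = ∑ y, (fun x =>
      ((quadraticChar F (x - 0) : ℤ) : ℂ) * ψ (κ * (x * 0) / (x - 0))) y * (g 0 * f y) := by
      apply Finset.sum_congr rfl
      intro x _
      simp only [hT]
      ring
    rw [e]
    exact this
  rw [hsum]
  have hn := norm_add₃_le (a := ((quadraticChar F (-1) : ℤ) : ℂ) * (∑ x, ∑ y, K x y))
    (b := ∑ y, T 0 y) (c := ∑ x, T x 0)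
  linarith

theorem ker (h : CnvStmt) : KerStmt := by
  intro F _ _ _ _ ψ hψ hq κ γ ε f g
  by_cases hε : ε = 0
  · subst hε
    have h1 := h F ψ hψ hq (κ * γ ^ 2) f g
    have h2 : ∑ x, ∑ y, ((quadraticChar F (x - y) : ℤ) : ℂ) *
        ψ (κ * (γ + 0 * (x + y)) ^ 2 / (x - y)) * (f x * g y) =
        ∑ x, ∑ y, ((quadraticChar F (x - y) : ℤ) : ℂ) * ψ (κ * γ ^ 2 / (x - y)) *
          (f x * g y) := by
      apply Finset.sum_congr rfl
      intro x _
      apply Finset.sum_congr rfl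
      intro y _
      rw [zero_mul, add_zero]
    rw [h2]
    refine h1.trans ?_
    apply mul_le_mul_of_nonneg_right _ (by positivity)
    have := Real.sqrt_nonneg (Fintype.card F : ℝ)
    linarith
  · have h3 : (3 : F) = 0 := by
      have := CharP.cast_eq_zero F 3
      exact_mod_cast this
    set s : F := γ / ε with hs
    have hsε : ε * s = γ := by
      rw [hs]
      field_simp
    set f' : F → ℂ := fun x => f (x + s) * ψ (κ * ε ^ 2 * x) with hf'
    set g' : F → ℂ := fun y => g (y + s) * ψ (-(κ * ε ^ 2 * y)) with hg'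
    have hc := core h F ψ hψ hq (κ * ε ^ 2) f' g'
    have hnf : ∑ x, ‖f' x‖ ^ 2 = ∑ x, ‖f x‖ ^ 2 := by
      rw [← Equiv.sum_comp (Equiv.addRight s) (fun x => ‖f x‖ ^ 2)]
      apply Finset.sum_congr rfl
      intro x _
      simp only [hf', norm_mul, psi_norm, mul_one, Equiv.coe_addRight]
    have hng : ∑ x, ‖g' x‖ ^ 2 = ∑ x, ‖g x‖ ^ 2 := by
      rw [← Equiv.sum_comp (Equiv.addRight s) (fun x => ‖g x‖ ^ 2)]
      apply Finset.sum_congr rfl
      intro x _
      simp only [hg', norm_mul, psi_norm, mul_one, Equiv.coe_addRight]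
    rw [hnf, hng] at hc
    have he : ∑ x, ∑ y, ((quadraticChar F (x - y) : ℤ) : ℂ) *
        ψ (κ * (γ + ε * (x + y)) ^ 2 / (x - y)) * (f x * g y) =
        ∑ x, ∑ y, ((quadraticChar F (x - y) : ℤ) : ℂ) *
          ψ (κ * ε ^ 2 * (x * y) / (x - y)) * (f' x * g' y) := by
      rw [← Equiv.sum_comp (Equiv.addRight s) (fun x => ∑ y,
        ((quadraticChar F (x - y) : ℤ) : ℂ) *
        ψ (κ * (γ + ε * (x + y)) ^ 2 / (x - y)) * (f x * g y))]
      apply Finset.sum_congr rfl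
      intro x _
      rw [← Equiv.sum_comp (Equiv.addRight s) (fun y =>
        ((quadraticChar F ((Equiv.addRight s) x - y) : ℤ) : ℂ) *
        ψ (κ * (γ + ε * ((Equiv.addRight s) x + y)) ^ 2 / ((Equiv.addRight s) x - y)) *
          (f ((Equiv.addRight s) x) * g y))]
      apply Finset.sum_congr rfl
      intro y _
      simp only [Equiv.coe_addRight]
      rw [add_sub_add_right_eq_sub]
      by_cases hxy : x = y
      · subst hxy
        simp
      · have h1 : x - y ≠ 0 := sub_ne_zero.mpr hxy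
        have e2 : κ * (γ + ε * (x + s + (y + s))) ^ 2 / (x - y) =
            κ * ε ^ 2 * (x * y) / (x - y) + κ * ε ^ 2 * x + -(κ * ε ^ 2 * y) := by
          have e3 : κ * (γ + ε * (x + s + (y + s))) ^ 2 =
              κ * ε ^ 2 * (x * y) + (κ * ε ^ 2 * x + -(κ * ε ^ 2 * y)) * (x - y) := by
            have e4 : γ + ε * (x + s + (y + s)) = ε * (x + y) := by
              linear_combination 2 * hsε + γ * h3
            rw [e4]
            linear_combination (κ * ε ^ 2 * (x * y)) * h3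
          rw [e3, add_div, mul_div_assoc (κ * ε ^ 2 * x + -(κ * ε ^ 2 * y)), div_self h1]
          ring
        rw [e2, AddChar.map_add_eq_mul, AddChar.map_add_eq_mul]
        simp only [hf', hg']
        ring
    rw [he]
    exact hc

end Pool.Agent.G9.H52
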